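import Pool.Agent.Y138.KC.Defs

/-!
# Heights and slopes: definitions
-/

set_option autoImplicit false

open CategoryTheory AlgebraicGeometry NumberField

universe u v

namespace Pool.Agent.N179.TL

open Module Polynomial Pool.Agent.H914 Pool.Agent.H914.VarClass Pool.Agent.H914.VarClass.Obj
  Pool.Agent.H914.WeilCohomology Pool.Agent.W534 Pool.Agent.TH121.KT Pool.Agent.W517.K3
  Pool.Agent.Y138.KC

/-- The numerical condition for one K3 surface: `n ≤ 2`; or `d ≤ 10`, `n ≤ 3` and `(d, m)` is not one
of nine exceptional pairs; or `d ≤ 10`, `m` is odd and `(d, m)` is not one of four exceptional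
pairs. -/
def GoodN (d m n : ℕ) : Prop :=
  n ≤ 2 ∨ (d ≤ 10 ∧ ((n ≤ 3 ∧ (d, m) ∉ exceptionalPairs) ∨ (Odd m ∧ (d, m) ∉ exceptionalOddPairs)))

/-- The index `i` is *isolated*: every integral solution of `∑ a j / h j ∈ Γ` with `|a j| ≤ n j` has
`a i = 0`. -/
def Isolated {r : ℕ} (Γ : Set ℚ) (h n : Fin r → ℕ) (i : Fin r) : Prop :=
  ∀ a : Fin r → ℤ, (∀ j, |a j| ≤ n j) → ∑ j, (a j : ℚ) / h j ∈ Γ → a i = 0

/-- The condition on the numbers `h i` (heights), `b i` (ranks), `d i` (half of the degree of the
field), `m i` (local degree) and `n i` (numbers of copies): for isolated indices only the condition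
`GoodN`; if there are indices which are not isolated, then `Γ` is zero, for these indices there is at
most one copy, the heights are different and at most `11`, the ranks are at most `23`, and the heights
`2, 3, 6` do not occur with the ranks `4, 6, 12`. -/
structure Admissible {r : ℕ} (Γ : Set ℚ) (h b d m n : Fin r → ℕ) : Prop where
  good : ∀ i, Isolated Γ h n i → GoodN (d i) (m i) (n i)
  linked : ∀ i, ¬ Isolated Γ h n i → Γ ⊆ {0} ∧ n i ≤ 1 ∧ h i ≤ 11 ∧ b i ≤ 23 ∧
    ∀ j, ¬ Isolated Γ h n j → h i = h j → i = j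
  exc : ¬ ∃ i j l : Fin r, (¬ Isolated Γ h n i ∧ h i = 2 ∧ b i = 4) ∧
    (¬ Isolated Γ h n j ∧ h j = 3 ∧ b j = 6) ∧ (¬ Isolated Γ h n l ∧ h l = 6 ∧ b l = 12)

/-- The slope of `x` with respect to `q = p ^ m`: the `p`-adic valuation, normalised by
`slope q = 1`. -/
noncomputable def slope (p : ℕ) [Fact p.Prime] (m : ℕ) (x : PadicAlgCl p) : ℝ :=
  -Real.logb ((p : ℝ) ^ m) ‖x‖

/-- `ν` is a Weil number over the field with `q = p ^ m` elements, of some weight `w` (all complex
conjugates have the absolute value `q ^ (w / 2)`), and if `w` is even then all slopes of `ν` are of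
the form `w / 2 + γ` with `γ ∈ Γ`. -/
def HasSlopesIn (p : ℕ) [Fact p.Prime] (m : ℕ) (Γ : Set ℚ) {Ω : Type*} [Field Ω] [CharZero Ω]
    (ν : Ω) : Prop :=
  ∃ (w : ℕ) (Q : ℚ[X]), Q ≠ 0 ∧ aeval ν Q = 0 ∧
    (∀ z : ℂ, aeval z Q = 0 → ‖z‖ ^ 2 = ((p : ℝ) ^ m) ^ w) ∧
    (Even w → ∀ β : PadicAlgCl p, aeval β Q = 0 → ∃ γ ∈ Γ, slope p m β = w / 2 + (γ : ℝ))

/-- The Frobenius number of a K3 surface of height `h` over the field with `p ^ a` elements, with
transcendental part of rank `b` (`b = 22 - ρ`, `ρ` the Picard number): the absolute value greater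
than one at a `p`-adic place is `p ^ (a / h)`; and the eigenvalues have a multiplicity `ε`, so
that `h` is `ε` times the local degree and `b` is `ε` times the degree. -/
structure IsK3Number (p a : ℕ) [Fact p.Prime] {E : Type} [Field E] [NumberField E] (α : E)
    (h b : ℕ) : Prop where
  frob : IsK3Frobenius p a α
  height : ∀ σ : E →+* PadicAlgCl p, 1 < ‖σ α‖ → ‖σ α‖ ^ h = (p : ℝ) ^ a
  mult : ∃ ε : ℕ, h = ε * localDegree p α ∧ b = ε * finrank ℚ E

/-- `X` is a K3 surface of height `h` with transcendental part of rank `b`, or a variety with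
cohomology of the same type: its cohomology is spanned by algebraic classes and by eigenvectors of
the Frobenius endomorphism in the middle degree, which is even, with eigenvalues given by the Weil
number `α` of an extension of degree `e` of the field of definition. -/
structure IsK3Variety {k : Type u} [Field k] {𝒱 : VarClass k} {ops : CycleOps 𝒱}
    {W : WeilCohomology.{u, v} ops} {p : ℕ} [Fact p.Prime] (Φ : FrobSystem W p) (X : 𝒱.Obj)
    (e : ℕ) {E : Type} [Field E] [NumberField E] (α : E) (h b : ℕ) : Prop where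
  weil : HasWeilNumber Φ X e α
  even : Even X.dim
  number : IsK3Number p (e * Φ.e X) α h b

/-- Every eigenvalue of the Frobenius endomorphism of `U` is a Weil number over the field of definition
of `U`, of some weight `w` (for the cohomology in degree `w`, by the theorem of Deligne), and if `w` is
even then the slopes are of the form `w / 2 + γ`, `γ ∈ Γ`. -/
def SlopesIn {k : Type u} [Field k] {𝒱 : VarClass k} {ops : CycleOps 𝒱}
    {W : WeilCohomology.{u, v} ops} {p : ℕ} [Fact p.Prime] (Φ : FrobSystem W p) (Γ : Set ℚ)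
    (U : 𝒱.Obj) : Prop :=
  ∀ ν : W.K, Module.End.HasEigenvalue (W.map (Φ.Fr U)).toLinearMap ν → HasSlopesIn p (Φ.e U) Γ ν

end Pool.Agent.N179.TL
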