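import Pool.Agent.N179.TL.Ar

/-!
# The Tate conjecture for products of K3 surfaces of different heights
-/

set_option autoImplicit false
set_option linter.unusedSectionVars false

open CategoryTheory AlgebraicGeometry NumberField
open scoped TensorProduct

universe u v

namespace Pool.Agent.N179.TL

open Pool.Agent.H914 Pool.Agent.H914.VarClass Pool.Agent.H914.VarClass.Obj
  Pool.Agent.H914.WeilCohomology Pool.Agent.H281R3.HT Pool.Agent.W534 Pool.Agent.TH132.A
  Pool.Agent.TH121.KT Pool.Agent.W517.K3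

variable {k : Type u} [Field k] {𝒱 : VarClass k} {ops : CycleOps 𝒱}
  {W : WeilCohomology.{u, v} ops} {p : ℕ} [Fact p.Prime] {Φ : FrobSystem W p}

theorem final [IsAlgClosed W.K] {r : ℕ} {X : Fin r → 𝒱.Obj} {e : Fin r → ℕ}
    {E : Fin r → Type} [∀ i, Field (E i)] [∀ i, NumberField (E i)] [∀ i, IsCMField (E i)]
    {α : ∀ i, E i} {h b n : Fin r → ℕ}
    (hX : ∀ i, IsK3Variety Φ (X i) (e i) (α i) (h i) (b i)) {Γ : Set ℚ} (hΓ : (0 : ℚ) ∈ Γ)
    (hA : Admissible Γ h b (fun i => Module.finrank ℚ (E i) / 2)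
      (fun i => localDegree p (α i)) n)
    {Z : 𝒱.Obj} (hZ : IsProductOfCopies W X n Z) :
    (∀ c, SemisimpleTateIn Φ Z c) ∧
    ∀ U : 𝒱.Obj, SlopesIn Φ Γ U → ∀ c,
      (TateIn Φ (Z.prod U) c ↔
        ∀ i ≤ c, (∃ x, Z.IsCyc i x ∧ ¬ HomEq W x 0) → TateIn Φ U (c - i)) ∧
      (SemisimpleTateIn Φ (Z.prod U) c ↔
        ∀ i ≤ c, (∃ x, Z.IsCyc i x ∧ ¬ HomEq W x 0) → SemisimpleTateIn Φ U (c - i)) := by
  have hd : ∀ i, Module.finrank ℚ (E i) = 2 * (Module.finrank ℚ (E i) / 2) := by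
    intro i
    have h6 : IsTotallyComplex (E i) := inferInstance
    have h7 := IsTotallyComplex.finrank (E i)
    omega
  have ha : ∀ i, 0 < e i * Φ.e (X i) := fun i => Nat.mul_pos (hX i).weil.pos (Φ.e_pos _)
  have hNR : NoRelation Φ (fun m ν => PPs p Γ m ν) X e α n := by
    intro m ν hm hν N' hN' D N hN hrel i σ
    exact core ha (fun i => (hX i).number) hd hA hm hν N' hN' D N hN hrel i σ
  have hTT : TateTimesL Φ (fun m ν => PPs p Γ m ν) Z :=
    tateTimesL_products (Fact.out : p.Prime) (fun i => (hX i).weil)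
      (fun i => (hX i).number.frob.unitary) (fun i => (hX i).even) hZ hNR
  obtain ⟨h1, h2⟩ := tateIn_prod_lev (Fact.out : p.Prime).one_lt hTT (fun m _ => PPs_one hΓ m)
    (fun m ν n hn h => PPs_pow m ν n hn h)
  refine ⟨h1, fun U hU c => h2 U (fun ν hν => ?_) c⟩
  exact ⟨Φ.e U, 1, ν, one_pos, (mul_one _).symm, (pow_one ν).symm, hU ν hν⟩

end Pool.Agent.N179.TL
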