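import Pool.Agent.N179.TL.Lev
import Pool.Agent.TH121.KT.Word3

/-!
# Products of copies of varieties with Weil numbers, with properties depending on the field
-/

set_option autoImplicit false
set_option linter.unusedSectionVars false

open CategoryTheory AlgebraicGeometry NumberField
open scoped TensorProduct

universe u v

namespace Pool.Agent.N179.TL

open Pool.Agent.H914 Pool.Agent.H914.VarClass Pool.Agent.H914.VarClass.Obj
  Pool.Agent.H914.WeilCohomology Pool.Agent.H281R3.HT Pool.Agent.W552 Pool.Agent.W534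
  Pool.Agent.W458.RK Pool.Agent.W458.MF Pool.Agent.TH132.A Pool.Agent.W536.RR
  Pool.Agent.TH121.KT

variable {k : Type u} [Field k] {𝒱 : VarClass k} {ops : CycleOps 𝒱}
  {W : WeilCohomology.{u, v} ops} {p : ℕ} {Φ : FrobSystem W p}
  {r : ℕ} {X : Fin r → 𝒱.Obj} {e : Fin r → ℕ} {K : Fin r → Type} [∀ i, Field (K i)]
  {α : ∀ i, K i} {Z U : 𝒱.Obj}

/-- the eigenvalue of a word, if the dimensions of the `X i` are even -/
lemma word_eigen_even (heven : ∀ i, Even (X i).dim) {s M : ℕ} (L : List (Letter Φ X e α Z))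
    (hL : ∀ l ∈ L, l.At s M) :
    ∃ (ω : W.K) (D : ℕ), frob Φ Z s (wordVal L) = ω • wordVal L ∧
      ω ^ (2 * (∏ j, (e j * Φ.e (X j))) * M) =
        ((card Φ Z s : W.K) ^ D) ^ (2 * (∏ j, (e j * Φ.e (X j))) * M) *
        (L.map fun l => (l.σ (α l.i)) ^ expo Φ X e Z s M l.i).prod := by
  induction L with
  | nil =>
    refine ⟨1, 0, ?_, ?_⟩
    · rw [wordVal_nil, frob_one, one_smul]
    · rw [one_pow, pow_zero, one_pow, List.map_nil, List.prod_nil, mul_one]
  | cons a L ih =>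
    obtain ⟨ω, A, h1, h2⟩ := ih fun l hl => hL l (List.mem_cons_of_mem _ hl)
    obtain ⟨ω', h3, h4⟩ := hL a List.mem_cons_self
    obtain ⟨b, hb⟩ := heven a.i
    let E : ℕ := ∏ j ∈ Finset.univ.erase a.i, (e j * Φ.e (X j))
    have hE : ∏ j, (e j * Φ.e (X j)) = e a.i * Φ.e (X a.i) * E :=
      (Finset.mul_prod_erase Finset.univ (fun j => e j * Φ.e (X j)) (Finset.mem_univ a.i)).symm
    refine ⟨ω' * ω, b + A, ?_, ?_⟩
    · rw [wordVal_cons, frob_mul_apply, h1, h3, smul_mul_smul_comm]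
    · rw [mul_pow, h2, List.map_cons, List.prod_cons, pow_add (card Φ Z s : W.K), mul_pow]
      have h5 : 2 * (∏ j, (e j * Φ.e (X j))) * M = 2 * (e a.i * Φ.e (X a.i)) * M * E := by
        rw [hE]; ring
      have h6 : ω' ^ (2 * (∏ j, (e j * Φ.e (X j))) * M) =
          ((card Φ Z s : W.K) ^ b) ^ (2 * (∏ j, (e j * Φ.e (X j))) * M) *
          (a.σ (α a.i)) ^ expo Φ X e Z s M a.i := by
        rw [h5, pow_mul, h4, mul_pow, ← pow_mul, ← pow_mul, ← pow_mul, hb]
        congr 1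
        · congr 1
          ring
      rw [h6]
      ring

variable [∀ i, NumberField (K i)] [∀ i, IsCMField (K i)]

/-- There are no relations, of degree at most `n i` in the conjugates of `α i`, with numbers `ν` which
have the property `PP m` (Frobenius eigenvalues over the field with `p ^ m` elements), apart from the
trivial ones. -/
def NoRelation (Φ : FrobSystem W p) (PP : ℕ → W.K → Prop) (X : Fin r → 𝒱.Obj) (e : Fin r → ℕ)
    (α : ∀ i, K i) (n : Fin r → ℕ) : Prop :=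
  ∀ (m : ℕ) (ν : W.K), 0 < m → PP m ν → ∀ N' : ∀ i, (K i →+* W.K) → ℕ,
    (∀ i, ∑ σ : K i →+* W.K, N' i σ ≤ n i) → ∀ (D : ℤ) (N : ℕ), 0 < N →
    letterProd α (fun i => N * (m * ∏ j ∈ Finset.univ.erase i, (e j * Φ.e (X j)))) N' *
      ν ^ (N * ∏ j, (e j * Φ.e (X j))) = (p : W.K) ^ (m * D * (N * ∏ j, (e j * Φ.e (X j)) : ℕ)) →
    ∀ i σ, N' i σ = N' i (cj σ)

/-- **The Tate conjecture for the products of copies of the `X i` with all varieties whose
Frobenius eigenvalues satisfy no relations with the `α i`.** -/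
theorem tateTimesL_products [IsAlgClosed W.K] (hp : p.Prime) {PP : ℕ → W.K → Prop}
    (hT : ∀ i, HasWeilNumber Φ (X i) (e i) (α i)) (hu : ∀ i, ∀ φ : K i →+* ℂ, ‖φ (α i)‖ = 1)
    (heven : ∀ i, Even (X i).dim) {n : Fin r → ℕ} (hZ : IsProductOfCopies W X n Z)
    (hrel : NoRelation Φ PP X e α n) : TateTimesL Φ PP Z := by
  classical
  intro s hs V _ _ _ G hG c a x hx
  have hp0 : (p : W.K) ≠ 0 := by exact_mod_cast hp.ne_zero
  have hQ : ∀ t, (card Φ Z t : W.K) ≠ 0 := fun t => card_ne Φ t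
  refine (tensor_killed (F := frob Φ Z s) (G := G) (card Φ Z s : W.K) (hQ s) c
    (fun i => cycSub W Z i) (fun i y hy => cyc_killed Φ hy) ?_ a x).1 hx
  intro μ ν N hN hν hrelν
  refine le_trans ?_ algSpan_le_cyc
  intro y hy
  obtain ⟨t₀, ht₀, h0⟩ := span_good (span_words hT hZ y)
  have h1 := h0 s hs
  set T := t₀ * s with hTdef
  have hTs : T = s * t₀ := mul_comm t₀ s
  have h2 : y ∈ Module.End.maxGenEigenspace (frob Φ Z T) (μ ^ t₀) := by
    rw [hTs, frob_mul_eq]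
    exact gen_pow_of_gen hy _
  have heig : ∀ v ∈ GoodWords Φ X e α n Z T, ∃ (ω : W.K) (D M : ℕ) (L : List (Letter Φ X e α Z))
      (C : W.H Z), frob Φ Z T v = ω • v ∧ 0 < M ∧ C ∈ algSpan W Z ∧ v = wordVal L * C ∧
      (∀ i, ∑ σ : K i →+* W.K, mult L i σ ≤ n i) ∧
      ω ^ (2 * (∏ j, (e j * Φ.e (X j))) * M) =
        ((card Φ Z T : W.K) ^ D) ^ (2 * (∏ j, (e j * Φ.e (X j))) * M) *
        letterProd α (expo Φ X e Z T M) (mult L) := by
    rintro v ⟨L, j, M, c, hM, hc, hn, hL, hcyc, rfl⟩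
    obtain ⟨ω, D, h3, h4⟩ := word_eigen_even heven L hL
    refine ⟨ω * (card Φ Z T : W.K) ^ j, D + j, M, L,
      W.cl Z c, ?_, hM, cl_mem_algSpan hc, rfl, hn, ?_⟩
    · rw [frob_mul_apply, h3, hcyc, smul_mul_smul_comm]
    · rw [mul_pow, h4, prod_letters, pow_add, mul_pow]
      ring
  have h3 := mem_span_gen (T := frob Φ Z T) (fun v hv => by
    obtain ⟨ω, _, _, _, _, h, _⟩ := heig v hv
    exact ⟨ω, eig_mem_gen h⟩) h1 h2
  refine (Submodule.span_le (p := algSpan W Z)).2 ?_ h3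
  rintro v ⟨hv, hvμ⟩
  by_cases hv0 : v = 0
  · rw [hv0]
    exact Submodule.zero_mem _
  obtain ⟨ω, D, M, Lw, C, h4, hM, hC, hvL, hn, h5⟩ := heig v hv
  have h6 : ω = μ ^ t₀ := eq_of_mem_gen (eig_mem_gen h4) hvμ hv0
  -- the relation
  let P : ℕ := ∏ j, (e j * Φ.e (X j))
  let m : ℕ := Φ.e Z * s
  have hm : 0 < m := Nat.mul_pos (Φ.e_pos Z) hs
  let N₁ : ℕ := N * t₀ * 2 * M
  have hN₁ : 0 < N₁ := Nat.mul_pos (Nat.mul_pos (Nat.mul_pos hN ht₀) two_pos) hM
  have hcs : (card Φ Z s : W.K) = (p : W.K) ^ m := by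
    rw [W534.card]
    push_cast
    rfl
  have hcT : (card Φ Z T : W.K) = (p : W.K) ^ (m * t₀) := by
    rw [W534.card]
    push_cast
    congr 1
    simp only [m, hTs]
    ring
  have hw : (fun i => N * expo Φ X e Z T M i) =
      fun i => N₁ * (m * ∏ j ∈ Finset.univ.erase i, (e j * Φ.e (X j))) := by
    funext i
    simp only [expo, N₁, m, hTs]
    ring
  have h7 : letterProd α (fun i => N₁ * (m * ∏ j ∈ Finset.univ.erase i, (e j * Φ.e (X j))))
      (mult Lw) * ν ^ (N₁ * P) = (p : W.K) ^ (m * (c - D) * (N₁ * P : ℕ)) := by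
    rw [← hw, ← letterProd_pow]
    have h8 : (μ * ν) ^ (N * (t₀ * (2 * P * M))) =
        ((card Φ Z s : W.K) ^ c) ^ (N * (t₀ * (2 * P * M))) := by
      rw [pow_mul, hrelν, ← pow_mul]
    have h9 : μ ^ (N * (t₀ * (2 * P * M))) = (((card Φ Z T : W.K) ^ D) ^ (2 * P * M)) ^ N *
        letterProd α (expo Φ X e Z T M) (mult Lw) ^ N := by
      rw [← mul_pow, ← h5, h6, ← pow_mul, ← pow_mul]
      congr 1
      simp only [P]
      ring
    rw [mul_pow, h9] at h8
    have h10 : N * (t₀ * (2 * P * M)) = N₁ * P := by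
      simp only [N₁]
      ring
    rw [h10] at h8
    have h11 : (((card Φ Z T : W.K) ^ D) ^ (2 * P * M)) ^ N ≠ 0 :=
      pow_ne_zero _ (pow_ne_zero _ (pow_ne_zero _ (hQ T)))
    apply mul_left_cancel₀ h11
    rw [← mul_assoc, h8, hcs, hcT, ← pow_mul, ← pow_mul, ← pow_mul, ← zpow_natCast (p : W.K) m,
      ← zpow_mul, ← zpow_natCast, ← zpow_mul, ← zpow_natCast (p : W.K), ← zpow_add₀ hp0]
    congr 1
    simp only [N₁]
    push_cast
    ring
  have hbal := hrel m ν hm (hG ν hν) (mult Lw) hn (c - D) N₁ hN₁ h7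
  rw [hvL]
  refine algSpan_mul (balanced_alg hT hu Lw.length Lw le_rfl ?_) hC
  rintro ⟨i, σ⟩
  have h12 := hbal i σ
  unfold mult at h12
  exact h12

end Pool.Agent.N179.TL
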