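import Pool.Agent.N179.TL.Comb
import Pool.Agent.N179.TL.Wd

/-!
# Slopes of relations between Frobenius numbers of K3 surfaces
-/

set_option autoImplicit false
set_option linter.unusedSectionVars false

namespace Pool.Agent.N179.TL

open NumberField Module Polynomial Pool.Agent.W517.K3 Pool.Agent.H485R3 Pool.Agent.TH121.KT
  Pool.Agent.Y138.KC

/-- powers of numbers with slopes in `Γ` -/
def PPs (p : ℕ) [Fact p.Prime] (Γ : Set ℚ) {Ω : Type*} [Field Ω] [CharZero Ω] (m : ℕ)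
    (ν : Ω) : Prop :=
  ∃ (m₀ t : ℕ) (ν₀ : Ω), 0 < t ∧ m = m₀ * t ∧ ν = ν₀ ^ t ∧ HasSlopesIn p m₀ Γ ν₀

theorem PPs_one {p : ℕ} [Fact p.Prime] {Γ : Set ℚ} (hΓ : (0 : ℚ) ∈ Γ) {Ω : Type*} [Field Ω]
    [CharZero Ω] (m : ℕ) : PPs p Γ m (1 : Ω) := by
  refine ⟨m, 1, 1, one_pos, (mul_one m).symm, (one_pow 1).symm, 0, Polynomial.X - 1,
    Polynomial.X_sub_C_ne_zero (1 : ℚ), by simp, ?_, ?_⟩
  · intro z hz
    have h2 : z = 1 := by
      rw [map_sub, aeval_X, map_one, sub_eq_zero] at hz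
      exact hz
    rw [h2]
    simp
  · intro _ z hz
    have h2 : z = 1 := by
      rw [map_sub, aeval_X, map_one, sub_eq_zero] at hz
      exact hz
    refine ⟨0, hΓ, ?_⟩
    rw [h2, slope]
    simp

theorem PPs_pow {p : ℕ} [Fact p.Prime] {Γ : Set ℚ} {Ω : Type*} [Field Ω]
    [CharZero Ω] (m : ℕ) (ν : Ω) (n : ℕ) (hn : 0 < n) (h : PPs p Γ m ν) :
    PPs p Γ (m * n) (ν ^ n) := by
  obtain ⟨m₀, t, ν₀, ht, rfl, rfl, h⟩ := h
  exact ⟨m₀, t * n, ν₀, Nat.mul_pos ht hn, by ring, by rw [pow_mul], h⟩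

section core

variable {p : ℕ} [Fact p.Prime] {r : ℕ} {E : Fin r → Type} [∀ i, Field (E i)]
  [∀ i, NumberField (E i)] [∀ i, IsCMField (E i)] {α : ∀ i, E i}

theorem norm_p : ‖(p : PadicAlgCl p)‖ = (p : ℝ)⁻¹ := by
  have h4 : (p : PadicAlgCl p) = algebraMap ℚ_[p] (PadicAlgCl p) (p : ℚ_[p]) := by simp
  rw [h4, PadicAlgCl.norm_extends, Padic.norm_p]

/-- **The relations with numbers whose slopes are in `Γ` are trivial.** -/
theorem core {a h b n d : Fin r → ℕ} (ha : ∀ i, 0 < a i)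
    (hα : ∀ i, IsK3Number p (a i) (α i) (h i) (b i)) (hd : ∀ i, finrank ℚ (E i) = 2 * d i)
    {Γ : Set ℚ}
    (hA : Admissible Γ h b d (fun i => localDegree p (α i)) n)
    {Ω : Type*} [Field Ω] [CharZero Ω] [IsAlgClosed Ω] {m : ℕ} (hm : 0 < m) {ν : Ω}
    (hν : PPs p Γ m ν) (N' : ∀ i, (E i →+* Ω) → ℕ) (hN' : ∀ i, ∑ σ : E i →+* Ω, N' i σ ≤ n i)
    (D : ℤ) (N₁ : ℕ) (hN₁ : 0 < N₁)
    (hrel : letterProd α (fun i => N₁ * (m * ∏ j ∈ Finset.univ.erase i, a j)) N' *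
      ν ^ (N₁ * ∏ j, a j) = (p : Ω) ^ (m * D * (N₁ * ∏ j, a j : ℕ)))
    (i : Fin r) (σ : E i →+* Ω) : N' i σ = N' i (cj σ) := by
  classical
  obtain ⟨m₀, t, ν₀, ht, rfl, rfl, w, Q, hQ0, hνQ, hC, hP⟩ := hν
  have hm₀ : 0 < m₀ := Nat.pos_of_mul_pos_right hm
  have hpp : 0 < p := (Fact.out : p.Prime).pos
  have hp1 : (1 : ℝ) < p := by exact_mod_cast (Fact.out : p.Prime).one_lt
  have hlp : 0 < Real.log p := Real.log_pos hp1
  set P : ℕ := ∏ j, a j with hPdef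
  have hPpos : 0 < P := Finset.prod_pos fun j _ => ha j
  let τ : Qb →+* Ω := (IsAlgClosed.lift : Qb →ₐ[ℚ] Ω).toRingHom
  obtain ⟨β, hβQ, hτβ⟩ := exists_root τ hQ0 hνQ
  have hbij : ∀ i, Function.Bijective (fun ρ : E i →+* Qb => τ.comp ρ) := by
    intro i
    constructor
    · intro ρ ρ' h
      ext x
      exact τ.injective (RingHom.congr_fun h x)
    · intro σ
      obtain ⟨ρ, hρ⟩ := exists_lift τ σ
      exact ⟨ρ, hρ⟩
  let N : ∀ i, (E i →+* Qb) → ℕ := fun i ρ => N' i (τ.comp ρ)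
  let w₁ : Fin r → ℕ := fun i => N₁ * (m₀ * t * ∏ j ∈ Finset.univ.erase i, a j)
  have hrelQ : (∏ i, ∏ ρ : E i →+* Qb, (ρ (α i)) ^ (w₁ i * N i ρ)) * β ^ (t * (N₁ * P)) =
      (p : Qb) ^ (((m₀ * t : ℕ) : ℤ) * D * (N₁ * P : ℕ)) := by
    apply τ.injective
    rw [map_mul, map_pow, hτβ, map_zpow₀, map_natCast, pow_mul, ← hrel, map_prod]
    congr 1
    unfold letterProd
    refine Finset.prod_congr rfl fun i _ => ?_
    rw [map_prod]
    refine Fintype.prod_equiv (Equiv.ofBijective _ (hbij i)) _ _ fun ρ => ?_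
    rw [map_pow]
    rfl
  have hβ0 : β ≠ 0 := by
    rintro rfl
    rw [zero_pow (Nat.mul_pos ht (Nat.mul_pos hN₁ hPpos)).ne', mul_zero] at hrelQ
    exact zpow_ne_zero _ (Nat.cast_ne_zero.2 hpp.ne') hrelQ.symm
  -- the weight
  have hw : (w : ℤ) = 2 * D := by
    let φ : Qb →+* ℂ := (IsAlgClosed.lift : Qb →ₐ[ℚ] ℂ).toRingHom
    have h1 := congrArg (fun z => ‖φ z‖) hrelQ
    simp only [map_mul, map_prod, map_pow, map_zpow₀, norm_mul, norm_prod, norm_pow, norm_zpow,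
      map_natCast] at h1
    have h2 : ∀ i, ∀ ρ : E i →+* Qb, ‖φ (ρ (α i))‖ = 1 := fun i ρ =>
      (hα i).frob.unitary (φ.comp ρ)
    simp only [h2, one_pow, Finset.prod_const_one, one_mul, Complex.norm_natCast] at h1
    have h3 : ‖φ β‖ ^ 2 = ((p : ℝ) ^ m₀) ^ w := hC _ (by
      have : aeval (φ β) Q = φ (aeval β Q) :=
        Polynomial.aeval_algHom_apply (IsAlgClosed.lift : Qb →ₐ[ℚ] ℂ) β Q
      rw [this, hβQ, map_zero])
    have h4 : (p : ℝ) ^ (((m₀ * w * (t * (N₁ * P)) : ℕ) : ℤ)) =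
        (p : ℝ) ^ ((((m₀ * t : ℕ) : ℤ) * D * (N₁ * P : ℕ)) * 2) := by
      rw [zpow_mul, ← h1, zpow_natCast, pow_mul (p : ℝ) (m₀ * w) (t * (N₁ * P)),
        pow_mul (p : ℝ) m₀ w, ← h3]
      norm_cast
      rw [← pow_mul, ← pow_mul, mul_comm]
    have h5 := zpow_right_injective₀ (zero_lt_one.trans hp1) hp1.ne' h4
    have h6 : ((m₀ * t * (N₁ * P) : ℕ) : ℤ) * w = ((m₀ * t * (N₁ * P) : ℕ) : ℤ) * (2 * D) := by
      push_cast at h5 ⊢
      linarith
    exact mul_left_cancel₀ (by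
      have : 0 < m₀ * t * (N₁ * P) :=
        Nat.mul_pos (Nat.mul_pos hm₀ ht) (Nat.mul_pos hN₁ hPpos)
      exact_mod_cast this.ne') h6
  have hwe : Even w := by
    have h1 : Even (w : ℤ) := ⟨D, by rw [hw]; ring⟩
    exact_mod_cast h1
  have hwR : (w : ℝ) / 2 = D := by
    have : ((w : ℤ) : ℝ) = ((2 * D : ℤ) : ℝ) := by rw [hw]
    push_cast at this
    linarith
  -- the place
  let ι : Qb →+* PadicAlgCl p := (IsAlgClosed.lift : Qb →ₐ[ℚ] PadicAlgCl p).toRingHom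
  have hslope : ∀ g : GQ, ∃ γ ∈ Γ, Real.log ‖ι (g β)‖ = -(D + (γ : ℝ)) * (m₀ * Real.log p) := by
    intro g
    have hgβ : aeval (g β) Q = 0 := by
      rw [Polynomial.aeval_algHom_apply g β Q, hβQ, map_zero]
    have hιβ : aeval (ι (g β)) Q = 0 := by
      have : aeval (ι (g β)) Q = ι (aeval (g β) Q) :=
        Polynomial.aeval_algHom_apply (IsAlgClosed.lift : Qb →ₐ[ℚ] PadicAlgCl p) (g β) Q
      rw [this, hgβ, map_zero]
    obtain ⟨γ, hγ, h1⟩ := hP hwe _ hιβ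
    refine ⟨γ, hγ, ?_⟩
    rw [hwR, slope, Real.logb, Real.log_pow] at h1
    have h2 : (m₀ : ℝ) * Real.log p ≠ 0 :=
      mul_ne_zero (Nat.cast_ne_zero.2 hm₀.ne') hlp.ne'
    rw [← h1, neg_neg, div_mul_cancel₀ _ h2]
  have hsum : ∀ g : GQ, ∑ i, (w₁ i : ℝ) * ∑ ρ : E i →+* Qb, (N i ρ : ℝ) *
      Real.log ‖ι (g (ρ (α i)))‖ + (t * (N₁ * P) : ℕ) * Real.log ‖ι (g β)‖ =
      -((((m₀ * t : ℕ) : ℤ) * D * (N₁ * P : ℕ) : ℤ) : ℝ) * Real.log p := by
    intro g
    have h1 := congrArg (fun z => Real.log ‖ι (g z)‖) hrelQ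
    simp only [map_mul, map_prod, map_pow, map_zpow₀, norm_mul, norm_prod, norm_pow, norm_zpow,
      map_natCast] at h1
    have hpos : ∀ i, ∀ ρ : E i →+* Qb, ‖ι (g (ρ (α i)))‖ ≠ 0 := by
      intro i ρ
      rw [norm_ne_zero_iff, ne_eq, map_eq_zero, map_eq_zero, map_eq_zero]
      exact TH121.KT.alpha_ne (hα i).frob.unitary
    rw [Real.log_mul, Real.log_prod, Real.log_zpow, norm_p, Real.log_inv, Real.log_pow] at h1
    rotate_left
    · intro i _
      exact Finset.prod_ne_zero_iff.2 fun ρ _ => pow_ne_zero _ (hpos i ρ)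
    · exact Finset.prod_ne_zero_iff.2 fun i _ =>
        Finset.prod_ne_zero_iff.2 fun ρ _ => pow_ne_zero _ (hpos i ρ)
    · refine pow_ne_zero _ ?_
      rw [norm_ne_zero_iff, ne_eq, map_eq_zero, map_eq_zero]
      exact hβ0
    rw [neg_mul, ← mul_neg, ← h1]
    congr 1
    refine Finset.sum_congr rfl fun i _ => ?_
    rw [Real.log_prod (fun ρ _ => pow_ne_zero _ (hpos i ρ)), Finset.mul_sum]
    refine Finset.sum_congr rfl fun ρ _ => ?_
    rw [Real.log_pow]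
    push_cast
    ring
  -- the finite Galois extension
  obtain ⟨L, iF, iA, iFin, iGal, hlift'⟩ := Exact.exists_common' E
  have hlift : ∀ {Ω' : Type} [Field Ω'] [Algebra ℚ Ω'] (e : L →ₐ[ℚ] Ω') (i : Fin r)
      (σ : E i →ₐ[ℚ] Ω'), ∃ σ' : E i →ₐ[ℚ] L, e.comp σ' = σ := fun e i σ => hlift' e i σ
  let j : L →ₐ[ℚ] Qb := IsAlgClosed.lift
  let e : L →ₐ[ℚ] PadicAlgCl p := RingHom.toRatAlgHom (ι.comp (j : L →+* Qb))
  have he : ∀ x, e x = ι (j x) := fun x => rfl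
  have hNF : NumberField L := by
    refine @NumberField.mk L _ ?_ ?_
    · exact charZero_of_injective_algebraMap (algebraMap ℚ L).injective
    · convert iFin
      exact Subsingleton.elim _ _
  have hne : ∀ i, Nonempty (E i →ₐ[ℚ] L) := by
    intro i
    obtain ⟨σ₀⟩ : Nonempty (E i →+* Qb) := inferInstance
    obtain ⟨φ, -⟩ := hlift j i (RingHom.toRatAlgHom σ₀)
    exact ⟨φ⟩
  have φ₀ : ∀ i, E i →ₐ[ℚ] L := fun i => (hne i).some
  have hS : ∀ i, Sgn (L ≃ₐ[ℚ] L) (W517.K3.bar (E := E i) (L := L)) (vv (α i) e) := fun i =>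
    sgn_embeddings (hα i).frob e (φ₀ i)
  have habs : ∀ i, ∃ R : ℝ, 1 < R ∧ ∀ φ : E i →ₐ[ℚ] L, ‖e (φ (α i))‖ = R ^ (vv (α i) e φ) :=
    fun i => exists_abs (hα i).frob e (φ₀ i)
  choose R hR hRn using habs
  have hRh : ∀ i, (h i : ℝ) * Real.log (R i) = a i * Real.log p := by
    intro i
    obtain ⟨φ, hφ⟩ := exists_vv_eq_one (hα i).frob e (φ₀ i)
    have h1 := hRn i φ
    rw [hφ, zpow_one] at h1
    have h2 := (hα i).height ((e : L →+* PadicAlgCl p).comp (φ : E i →+* L)) (by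
      change 1 < ‖e (φ (α i))‖
      rw [h1]
      exact hR i)
    change ‖e (φ (α i))‖ ^ h i = _ at h2
    rw [h1] at h2
    have h3 := congrArg Real.log h2
    rwa [Real.log_pow, Real.log_pow] at h3
  have hh0 : ∀ i, (h i : ℝ) ≠ 0 := by
    intro i h0
    have h1 := hRh i
    rw [h0, zero_mul] at h1
    exact (mul_ne_zero (Nat.cast_ne_zero.2 (ha i).ne') hlp.ne') h1.symm
  -- embeddings
  let T : ∀ i, (E i →ₐ[ℚ] L) → (E i →+* Qb) := fun i φ => (j : L →+* Qb).comp (φ : E i →+* L)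
  have hT : ∀ i, Function.Bijective (T i) := by
    intro i
    constructor
    · intro φ φ' h
      ext x
      apply j.toRingHom.injective
      exact RingHom.congr_fun h x
    · intro σ
      obtain ⟨φ, hφ⟩ := hlift j i (RingHom.toRatAlgHom σ)
      refine ⟨φ, ?_⟩
      ext x
      exact AlgHom.congr_fun hφ x
  let T' : ∀ i, (E i →ₐ[ℚ] L) → (E i →+* PadicAlgCl p) :=
    fun i φ => (e : L →+* PadicAlgCl p).comp (φ : E i →+* L)
  have hT' : ∀ i, Function.Bijective (T' i) := by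
    intro i
    constructor
    · intro φ φ' h
      ext x
      apply e.toRingHom.injective
      exact RingHom.congr_fun h x
    · intro σ
      obtain ⟨φ, hφ⟩ := hlift e i (RingHom.toRatAlgHom σ)
      refine ⟨φ, ?_⟩
      ext x
      exact AlgHom.congr_fun hφ x
  have hcardX : ∀ i, Fintype.card (E i →ₐ[ℚ] L) = 2 * d i := by
    intro i
    rw [Fintype.card_of_bijective (hT' i), Embeddings.card, hd i]
  have hcardS : ∀ i, (Lv (vv (α i) e) 1).card = localDegree p (α i) := by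
    intro i
    unfold localDegree
    have h1 : Nat.card {φ : E i →ₐ[ℚ] L // vv (α i) e φ = 1} = (Lv (vv (α i) e) 1).card := by
      rw [Nat.card_eq_fintype_card, Fintype.card_subtype]
      rfl
    rw [← h1]
    refine Nat.card_congr (Equiv.subtypeEquiv (Equiv.ofBijective (T' i) (hT' i)) fun φ => ?_)
    rw [vv_eq_one_iff]
    rfl
  choose ε hε1 hε2 using fun i => (hα i).mult
  -- the relation
  let NL : ∀ i, (E i →ₐ[ℚ] L) → ℕ := fun i φ => N i (T i φ)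
  have hrelL : ∀ g : L ≃ₐ[ℚ] L,
      ∑ i, (kk (fun i => vv (α i) e) NL i g : ℚ) / h i ∈ Γ := by
    intro g
    obtain ⟨g', hg'⟩ := exists_act_eq (K := L) (j : L →+* Qb)
      ((j : L →+* Qb).comp (g : L →+* L))
    have hg'' : ∀ x, g' (j x) = j (g x) := fun x => RingHom.congr_fun hg' x
    obtain ⟨γ, hγ, h1⟩ := hslope g'
    have h2 := hsum g'
    have h3 : ∀ i, ∑ ρ : E i →+* Qb, (N i ρ : ℝ) * Real.log ‖ι (g' (ρ (α i)))‖ =
        (kk (fun i => vv (α i) e) NL i g : ℝ) * Real.log (R i) := by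
      intro i
      rw [← Equiv.sum_comp (Equiv.ofBijective (T i) (hT i))]
      unfold kk
      push_cast
      rw [Finset.sum_mul]
      refine Finset.sum_congr rfl fun φ _ => ?_
      have h4 : ‖ι (g' (T i φ (α i)))‖ = (R i) ^ (vv (α i) e (g • φ)) := by
        rw [← hRn i (g • φ), he, W517.K3.smul_apply]
        change ‖ι (g' (j (φ (α i))))‖ = _
        rw [hg'']
      change (N i (T i φ) : ℝ) * Real.log ‖ι (g' (T i φ (α i)))‖ = _
      rw [h4, Real.log_zpow]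
      simp only [NL]
      ring
    have h5 : ∀ i, (w₁ i : ℝ) * ∑ ρ : E i →+* Qb, (N i ρ : ℝ) *
        Real.log ‖ι (g' (ρ (α i)))‖ =
        (N₁ * (m₀ * t) * P * Real.log p) * ((kk (fun i => vv (α i) e) NL i g : ℝ) / h i) := by
      intro i
      rw [h3 i]
      have h6 : (P : ℝ) = a i * ∏ j ∈ Finset.univ.erase i, (a j : ℝ) := by
        rw [hPdef, ← Finset.mul_prod_erase Finset.univ a (Finset.mem_univ i)]
        push_cast
        rfl
      have h7 : Real.log (R i) = a i * Real.log p / h i := by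
        rw [eq_div_iff (hh0 i), mul_comm]
        exact hRh i
      rw [h7, h6]
      simp only [w₁]
      push_cast
      ring
    rw [Finset.sum_congr rfl fun i _ => h5 i, ← Finset.mul_sum, h1] at h2
    have h8 : (∑ i, (kk (fun i => vv (α i) e) NL i g : ℝ) / h i) = γ := by
      have h9 : (N₁ * (m₀ * t) * P * Real.log p : ℝ) ≠ 0 := by
        have : 0 < N₁ * (m₀ * t) * P := Nat.mul_pos (Nat.mul_pos hN₁ (Nat.mul_pos hm₀ ht)) hPpos
        have h10 : (N₁ * (m₀ * t) * P : ℝ) ≠ 0 := by exact_mod_cast this.ne'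
        exact mul_ne_zero h10 hlp.ne'
      apply mul_left_cancel₀ h9
      push_cast at h2
      linarith
    have h11 : ∑ i, (kk (fun i => vv (α i) e) NL i g : ℚ) / h i = γ := by
      have : ((∑ i, (kk (fun i => vv (α i) e) NL i g : ℚ) / h i : ℚ) : ℝ) = (γ : ℝ) := by
        push_cast
        exact h8
      exact_mod_cast this
    rw [h11]
    exact hγ
  have hNL : ∀ i, ∑ φ, NL i φ ≤ n i := by
    intro i
    refine le_trans (le_of_eq ?_) (hN' i)
    rw [show ∑ φ, NL i φ = ∑ ρ, N i ρ from Equiv.sum_comp (Equiv.ofBijective (T i) (hT i)) (N i)]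
    exact Equiv.sum_comp (Equiv.ofBijective _ (hbij i)) (N' i)
  have key := balanced_family (n := n) hS hcardX hcardS (ε := ε) hε1
    (fun i => by rw [hε2 i, hd i]) (fun i => Nat.pos_of_ne_zero fun h0 => hh0 i (by rw [h0]; simp))
    hA NL hNL hrelL
  obtain ⟨ρ, rfl⟩ := (hbij i).2 σ
  obtain ⟨φ, rfl⟩ := (hT i).2 ρ
  exact key i φ

end core

end Pool.Agent.N179.TL
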