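import Pool.Agent.Y138.KC.Link
import Pool.Agent.N179.TL.Defs

/-!
# Relations between signed translates for several sets
-/

set_option autoImplicit false
set_option linter.unusedSectionVars false

namespace Pool.Agent.N179.TL

open Finset Pool.Agent.W517.K3 Pool.Agent.Y138.KC

section one

variable {G X : Type*} [Group G] [Finite G] [MulAction G X] [Fintype X] [DecidableEq X]
  {c : X → X} {v : X → ℤ} (hS : Sgn G c v)
include hS

theorem exists_v_one (x : X) : ∃ g : G, v (g • x) = 1 := by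
  obtain ⟨y, hy⟩ := hS.ex
  obtain ⟨g, hg⟩ := hS.trans x y
  exact ⟨g, by rw [hg, hy]⟩

theorem balanced_list2 (l : List X) (hl : l.length ≤ 2)
    (h : ∀ g : G, (l.map (fun x => v (g • x))).sum = 0) (x : X) :
    l.count x = l.count (c x) := by
  rcases l with _ | ⟨a, _ | ⟨b, _ | ⟨e, l⟩⟩⟩
  · simp
  · exfalso
    obtain ⟨g, hg⟩ := exists_v_one hS a
    have := h g
    simp [hg] at this
  · have hab : b = c a := by
      refine hS.sep b (c a) fun g => ?_
      have := h g
      simp only [List.map_cons, List.map_nil, List.sum_cons, List.sum_nil] at this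
      rw [← hS.cg, hS.odd]
      omega
    subst hab
    have h1 : ∀ y, (c y = x) ↔ (y = c x) := by
      intro y
      constructor
      · rintro rfl; exact (hS.cc y).symm
      · rintro rfl; exact hS.cc x
    have h2 : (c a = c x) ↔ (a = x) := ⟨fun h => c_inj hS h, fun h => by rw [h]⟩
    simp only [List.count_cons, List.count_nil, beq_iff_eq, h1, h2]
    omega
  · exfalso
    simp only [List.length_cons] at hl
    omega

/-- Sums of at most two terms. -/
theorem balanced_two (N : X → ℕ) (hN : ∑ x, N x ≤ 2)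
    (h : ∀ g : G, ∑ x, (N x : ℤ) * v (g • x) = 0) (x : X) : N x = N (c x) := by
  classical
  let s : Multiset X := ∑ x : X, N x • {x}
  have hcount : ∀ y, s.count y = N y := by
    intro y
    simp only [s]
    rw [Multiset.count_sum']
    simp only [Multiset.count_nsmul, Multiset.count_singleton]
    simp
  have hcard : s.card = ∑ x, N x := by
    simp [s, Multiset.card_sum]
  have hsum : ∀ g : G, (s.toList.map (fun x => v (g • x))).sum = 0 := by
    intro g
    rw [← h g, ← Multiset.sum_coe, ← Multiset.map_coe, Multiset.coe_toList,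
      Finset.sum_multiset_map_count, Finset.sum_subset (Finset.subset_univ _)]
    · refine Finset.sum_congr rfl fun y _ => ?_
      rw [hcount, nsmul_eq_mul]
    · intro y _ hy
      rw [Multiset.mem_toFinset, ← Multiset.count_eq_zero] at hy
      rw [hy, zero_smul]
  have h1 := balanced_list2 hS s.toList (by rw [Multiset.length_toList, hcard]; exact hN) hsum x
  rw [← Multiset.coe_count, ← Multiset.coe_count, Multiset.coe_toList, hcount, hcount] at h1
  exact h1

/-- The relations for one set are trivial. -/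
theorem balanced_comb {d m n : ℕ} (hX : Fintype.card X = 2 * d) (hm : (Lv v 1).card = m)
    (hgood : GoodN d m n) (N : X → ℕ) (hN : ∑ x, N x ≤ n)
    (h : ∀ g : G, ∑ x, (N x : ℤ) * v (g • x) = 0) (x : X) : N x = N (c x) := by
  rcases hgood with h2 | ⟨hd10, ⟨hn3, hex⟩ | ⟨hodd, hex⟩⟩
  · exact balanced_two hS N (hN.trans h2) h x
  · exact balanced_small hS (fun a b e h => no_tri hS hX hm hd10 hex h) N (hN.trans hn3) h x
  · have h5 := zero_odd hS hX hm hodd hd10 hex
        (n := fun y => (N y : ℤ) - N (c y)) ⟨?_, ?_⟩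
    · have h7 : (N x : ℤ) - N (c x) = 0 := congrFun h5 x
      omega
    · intro y
      change (N (c y) : ℤ) - N (c (c y)) = -((N y : ℤ) - N (c y))
      rw [hS.cc]
      ring
    · intro g
      have h6 : ∑ y, (N (c y) : ℤ) * v (g • y) = - ∑ y, (N y : ℤ) * v (g • y) := by
        rw [← Finset.sum_neg_distrib]
        refine Fintype.sum_equiv ⟨c, c, hS.cc, hS.cc⟩ _ _ fun y => ?_
        change _ = -((N (c y) : ℤ) * v (g • c y))
        rw [← hS.cg, hS.odd]
        ring
      simp only [sub_mul, Finset.sum_sub_distrib]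
      rw [h6, h g]
      ring

/-- the number of group elements with nonzero value -/
theorem card_nonzero {d m : ℕ} (hX : Fintype.card X = 2 * d) (hm : (Lv v 1).card = m) (x : X) :
    Nat.card {g : G // v (g • x) ≠ 0} * d = Nat.card G * m := by
  classical
  have _ : Fintype G := Fintype.ofFinite G
  -- fibres
  have hfib : ∀ y : X, (univ.filter (fun g : G => g • x = y)).card =
      (univ.filter (fun g : G => g • x = x)).card := by
    intro y
    obtain ⟨g₀, rfl⟩ := hS.trans x y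
    refine Finset.card_bij (fun g _ => g₀⁻¹ * g) ?_ ?_ ?_
    · intro g hg
      rw [mem_filter] at hg ⊢
      refine ⟨mem_univ _, ?_⟩
      rw [mul_smul, hg.2, inv_smul_smul]
    · intro g _ g' _ h
      exact mul_left_cancel h
    · intro g hg
      rw [mem_filter] at hg
      refine ⟨g₀ * g, ?_, by group⟩
      rw [mem_filter]
      exact ⟨mem_univ _, by rw [mul_smul, hg.2]⟩
  set s := (univ.filter (fun g : G => g • x = x)).card with hs
  have hG : Nat.card G = 2 * d * s := by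
    rw [Nat.card_eq_fintype_card, ← Finset.card_univ,
      Finset.card_eq_sum_card_fiberwise (f := fun g : G => g • x) (t := univ)
        (fun _ _ => mem_univ _), Finset.sum_congr rfl fun y _ => hfib y, Finset.sum_const,
      Finset.card_univ, hX, smul_eq_mul]
  have hneg : (Lv v (-1)).card = m := by
    rw [← hm]
    refine Finset.card_bij (fun y _ => c y) ?_ ?_ ?_
    · intro y hy
      rw [mem_Lv] at hy ⊢
      rw [hS.odd, hy, neg_neg]
    · intro y _ y' _ h
      exact c_inj hS h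
    · intro y hy
      rw [mem_Lv] at hy
      exact ⟨c y, mem_Lv.2 (by rw [hS.odd, hy]), hS.cc y⟩
  have hset : (univ.filter (fun y : X => v y ≠ 0)).card = 2 * m := by
    have h1 : univ.filter (fun y : X => v y ≠ 0) = Lv v 1 ∪ Lv v (-1) := by
      ext y
      rw [mem_filter, mem_union, mem_Lv, mem_Lv]
      constructor
      · rintro ⟨-, h⟩
        rcases hS.val y with h1 | h1 | h1
        · exact Or.inl h1
        · exact absurd h1 h
        · exact Or.inr h1
      · rintro (h | h) <;> exact ⟨mem_univ _, by rw [h]; decide⟩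
    rw [h1, Finset.card_union_of_disjoint, hm, hneg, two_mul]
    rw [Finset.disjoint_left]
    intro y h2 h3
    rw [mem_Lv] at h2 h3
    omega
  have hnz : Nat.card {g : G // v (g • x) ≠ 0} = 2 * m * s := by
    rw [Nat.card_eq_fintype_card, Fintype.card_subtype,
      Finset.card_eq_sum_card_fiberwise (f := fun g : G => g • x)
        (t := univ.filter (fun y : X => v y ≠ 0))]
    · rw [← hset, ← smul_eq_mul, ← Finset.sum_const]
      refine Finset.sum_congr rfl fun y hy => ?_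
      rw [← hfib y]
      congr 1
      ext g
      rw [mem_filter, mem_filter, mem_filter]
      constructor
      · rintro ⟨-, h⟩
        exact ⟨mem_univ _, h⟩
      · rintro ⟨-, h⟩
        refine ⟨⟨mem_univ _, ?_⟩, h⟩
        rw [h]
        exact (mem_filter.1 hy).2
    · intro g hg
      rw [Finset.coe_filter, Set.mem_ofPred_eq] at hg ⊢
      exact ⟨mem_univ _, hg.2⟩
  rw [hnz, hG]
  ring

end one

section family

variable {r : ℕ} {G : Type} [Group G] [Finite G] {X : Fin r → Type} [∀ i, MulAction G (X i)]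
  [∀ i, Fintype (X i)] {c : ∀ i, X i → X i} {v : ∀ i, X i → ℤ}

/-- the sum of the values -/
def kk (v : ∀ i, X i → ℤ) (N : ∀ i, X i → ℕ) (i : Fin r) (g : G) : ℤ :=
  ∑ x, (N i x : ℤ) * v i (g • x)

theorem kk_abs (hS : ∀ i, Sgn G (c i) (v i)) (N : ∀ i, X i → ℕ) (i : Fin r) (g : G) {n : ℕ}
    (hn : ∑ x, N i x ≤ n) : |kk v N i g| ≤ n := by
  unfold kk
  refine (Finset.abs_sum_le_sum_abs _ _).trans ?_
  have h1 : ∀ x, |(N i x : ℤ) * v i (g • x)| ≤ (N i x : ℤ) := by
    intro x
    rw [abs_mul, Nat.abs_cast]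
    rcases (hS i).val (g • x) with h | h | h <;> rw [h] <;> simp
  refine (Finset.sum_le_sum fun x _ => h1 x).trans ?_
  exact_mod_cast hn

theorem linear_facts (f : ℕ → ℤ) (hf : ∀ t, |f t| ≤ 1)
    (h : (f 1 : ℚ) / 1 + f 2 / 2 + f 3 / 3 + f 4 / 4 + f 5 / 5 + f 6 / 6 + f 7 / 7 + f 8 / 8 +
      f 9 / 9 + f 10 / 10 + f 11 / 11 = 0) :
    f 4 = 0 ∧ f 5 = 0 ∧ f 7 = 0 ∧ f 8 = 0 ∧ f 9 = 0 ∧ f 10 = 0 ∧ f 11 = 0 ∧ f 6 = f 3 ∧
      (f 3 = 0 → f 2 = 0 ∧ f 1 = 0) ∧ (f 3 ≠ 0 → f 2 ≠ 0) := by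
  have h0 : 27720 * f 1 + 13860 * f 2 + 9240 * f 3 + 6930 * f 4 + 5544 * f 5 + 4620 * f 6 +
      3960 * f 7 + 3465 * f 8 + 3080 * f 9 + 2772 * f 10 + 2520 * f 11 = 0 := by
    have : ((27720 * f 1 + 13860 * f 2 + 9240 * f 3 + 6930 * f 4 + 5544 * f 5 + 4620 * f 6 +
      3960 * f 7 + 3465 * f 8 + 3080 * f 9 + 2772 * f 10 + 2520 * f 11 : ℤ) : ℚ) = 0 := by
      push_cast
      linarith
    exact_mod_cast this
  have hb : ∀ t, -1 ≤ f t ∧ f t ≤ 1 := fun t => abs_le.1 (hf t)
  have b1 := hb 1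
  have b2 := hb 2
  have b3 := hb 3
  have b4 := hb 4
  have b5 := hb 5
  have b6 := hb 6
  have b7 := hb 7
  have b8 := hb 8
  have b9 := hb 9
  have b10 := hb 10
  have b11 := hb 11
  generalize f 1 = x1 at *
  generalize f 2 = x2 at *
  generalize f 3 = x3 at *
  generalize f 4 = x4 at *
  generalize f 5 = x5 at *
  generalize f 6 = x6 at *
  generalize f 7 = x7 at *
  generalize f 8 = x8 at *
  generalize f 9 = x9 at *
  generalize f 10 = x10 at *
  generalize f 11 = x11 at *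
  have h11 : x11 = 0 := by
    have h1 : 2520 * x11 = 11 * (-(2520 * x1 + 1260 * x2 + 840 * x3 + 630 * x4 + 504 * x5 +
      420 * x6 + 360 * x7 + 315 * x8 + 280 * x9 + 252 * x10)) := by linarith
    clear h0
    generalize (-(2520 * x1 + 1260 * x2 + 840 * x3 + 630 * x4 + 504 * x5 +
      420 * x6 + 360 * x7 + 315 * x8 + 280 * x9 + 252 * x10)) = y at h1
    omega
  subst h11
  have h7 : x7 = 0 := by
    have h1 : 360 * x7 = 7 * (-(360 * x1 + 180 * x2 + 120 * x3 + 90 * x4 + 72 * x5 + 60 * x6 +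
      45 * x8 + 40 * x9 + 36 * x10)) := by linarith
    clear h0
    generalize (-(360 * x1 + 180 * x2 + 120 * x3 + 90 * x4 + 72 * x5 + 60 * x6 +
      45 * x8 + 40 * x9 + 36 * x10)) = y at h1
    omega
  subst h7
  have h8 : x8 = 0 := by
    have h1 : 315 * x8 = 2 * (-(1260 * x1 + 630 * x2 + 420 * x3 + 315 * x4 + 252 * x5 + 210 * x6 +
      140 * x9 + 126 * x10)) := by linarith
    clear h0
    generalize (-(1260 * x1 + 630 * x2 + 420 * x3 + 315 * x4 + 252 * x5 + 210 * x6 +
      140 * x9 + 126 * x10)) = y at h1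
    omega
  subst h8
  have h9 : x9 = 0 := by
    have h1 : 280 * x9 = 3 * (-(840 * x1 + 420 * x2 + 280 * x3 + 210 * x4 + 168 * x5 + 140 * x6 +
      84 * x10)) := by linarith
    clear h0
    generalize (-(840 * x1 + 420 * x2 + 280 * x3 + 210 * x4 + 168 * x5 + 140 * x6 +
      84 * x10)) = y at h1
    omega
  subst h9
  have h4 : x4 = 0 := by
    have h1 : 315 * x4 = 2 * (-(630 * x1 + 315 * x2 + 210 * x3 + 126 * x5 + 105 * x6 +
      63 * x10)) := by linarith
    clear h0
    generalize (-(630 * x1 + 315 * x2 + 210 * x3 + 126 * x5 + 105 * x6 +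
      63 * x10)) = y at h1
    omega
  subst h4
  have h45 : 2 * x5 + x10 = 0 := by
    have h1 : 252 * (2 * x5 + x10) = 5 * (-(504 * x1 + 252 * x2 + 168 * x3 + 84 * x6)) := by
      linarith
    clear h0
    generalize (-(504 * x1 + 252 * x2 + 168 * x3 + 84 * x6)) = y at h1
    omega
  have h5 : x5 = 0 := by
    clear h0
    omega
  have h10 : x10 = 0 := by
    clear h0
    omega
  have h6 : x6 = x3 := by omega
  refine ⟨rfl, h5, rfl, rfl, rfl, h10, rfl, h6, fun h => ⟨by omega, by omega⟩, fun h => by omega⟩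

/-- the value of the family at a height -/
def FF (h : Fin r → ℕ) (v : ∀ i, X i → ℤ) (N : ∀ i, X i → ℕ) (g : G) (t : ℕ) : ℤ :=
  ∑ i, if h i = t then kk v N i g else 0

theorem FF_ne {h : Fin r → ℕ} {N : ∀ i, X i → ℕ} {g : G} {t : ℕ}
    (ht : FF h v N g t ≠ 0) : ∃ i, h i = t ∧ kk v N i g ≠ 0 := by
  by_contra hcon
  push Not at hcon
  apply ht
  unfold FF
  refine Finset.sum_eq_zero fun i _ => ?_
  by_cases h1 : h i = t
  · rw [if_pos h1]
    exact hcon i h1
  · rw [if_neg h1]

section linked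

variable {h n : Fin r → ℕ} {J : Fin r → Prop} (hinj : ∀ i j, J i → J j → h i = h j → i = j)
  {N : ∀ i, X i → ℕ} (hJ : ∀ i, ¬ J i → ∀ g : G, kk v N i g = 0)

include hinj hJ

theorem FF_height (g : G) {i : Fin r} (hi : J i) : FF h v N g (h i) = kk v N i g := by
  unfold FF
  rw [Finset.sum_eq_single i]
  · rw [if_pos rfl]
  · intro j _ hj
    by_cases h1 : h j = h i
    · rw [if_pos h1]
      by_cases hjJ : J j
      · exact absurd (hinj j i hjJ hi h1) hj
      · exact hJ j hjJ g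
    · rw [if_neg h1]
  · intro h1
    exact absurd (Finset.mem_univ i) h1

theorem FF_le (hS : ∀ i, Sgn G (c i) (v i)) (hN : ∀ i, ∑ x, N i x ≤ n i) (hn : ∀ i, J i → n i ≤ 1)
    (g : G) (t : ℕ) : |FF h v N g t| ≤ 1 := by
  by_cases ht : FF h v N g t = 0
  · rw [ht]; simp
  · obtain ⟨i, rfl, hi⟩ := FF_ne ht
    have hiJ : J i := by
      by_contra h1
      exact hi (hJ i h1 g)
    rw [FF_height hinj hJ g hiJ]
    refine (kk_abs hS N i g (hN i)).trans ?_
    exact_mod_cast hn i hiJ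

omit hinj in
theorem FF_sum (hten : ∀ i, J i → h i ≤ 11) (g : G) :
    ∑ i, (kk v N i g : ℚ) / h i = ∑ t ∈ Finset.range 12, (FF h v N g t : ℚ) / t := by
  unfold FF
  push_cast
  simp only [Finset.sum_div]
  rw [Finset.sum_comm]
  refine Finset.sum_congr rfl fun i _ => ?_
  by_cases hi : J i
  · rw [Finset.sum_eq_single (h i)]
    · rw [if_pos rfl]
    · intro t _ ht
      rw [if_neg (fun h1 => ht h1.symm), zero_div]
    · intro h1
      exact absurd (Finset.mem_range.2 (by have := hten i hi; omega)) h1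
  · rw [hJ i hi g, Finset.sum_eq_zero]
    · simp
    · intro t _
      split_ifs <;> simp

end linked

/-- a multiplicity function with sum at most one -/
theorem kk_single {N : ∀ i, X i → ℕ} {i : Fin r} (hN : ∑ x, N i x ≤ 1) {g₀ : G}
    (h0 : kk v N i g₀ ≠ 0) : ∃ x, ∀ g : G, kk v N i g = v i (g • x) := by
  classical
  obtain ⟨x, hx⟩ : ∃ x, N i x ≠ 0 := by
    by_contra hcon
    push Not at hcon
    apply h0
    unfold kk
    refine Finset.sum_eq_zero fun x _ => ?_
    rw [hcon x]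
    simp
  have h1 : N i x ≤ ∑ x, N i x := Finset.single_le_sum (fun _ _ => Nat.zero_le _) (mem_univ x)
  have hx1 : N i x = 1 := by omega
  have h2 : ∀ y, y ≠ x → N i y = 0 := by
    intro y hy
    have h3 : N i x + N i y ≤ ∑ x, N i x := by
      rw [← Finset.sum_pair hy.symm]
      exact Finset.sum_le_sum_of_subset (Finset.subset_univ _)
    omega
  refine ⟨x, fun g => ?_⟩
  unfold kk
  rw [Finset.sum_eq_single x]
  · rw [hx1]
    simp
  · intro y _ hy
    rw [h2 y hy]
    simp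
  · intro h3
    exact absurd (mem_univ x) h3

/-- **Different heights.** -/
theorem kk_zero_linked (hS : ∀ i, Sgn G (c i) (v i)) {h b n d m ε : Fin r → ℕ}
    (hd : ∀ i, Fintype.card (X i) = 2 * d i) (hm : ∀ i, (Lv (v i) 1).card = m i)
    (hh : ∀ i, h i = ε i * m i) (hb : ∀ i, b i = ε i * (2 * d i)) (J : Fin r → Prop)
    (hJ1 : ∀ i, J i → n i ≤ 1 ∧ h i ≤ 11 ∧ b i ≤ 23)
    (hinj : ∀ i j, J i → J j → h i = h j → i = j)
    (hexc : ¬ ∃ i j l : Fin r, (J i ∧ h i = 2 ∧ b i = 4) ∧
      (J j ∧ h j = 3 ∧ b j = 6) ∧ (J l ∧ h l = 6 ∧ b l = 12))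
    (hpos : ∀ i, 0 < h i)
    (N : ∀ i, X i → ℕ) (hN : ∀ i, ∑ x, N i x ≤ n i)
    (hJ : ∀ i, ¬ J i → ∀ g : G, kk v N i g = 0)
    (hrel : ∀ g : G, ∑ i, (kk v N i g : ℚ) / h i = 0) (i₀ : Fin r) (g₀ : G) :
    kk v N i₀ g₀ = 0 := by
  classical
  by_contra hne
  have hfacts : ∀ g : G, _ := fun g => linear_facts (FF h v N g)
    (FF_le hinj hJ hS hN (fun i hi => (hJ1 i hi).1) g) (by
      have h1 := hrel g
      rw [FF_sum hJ (fun i hi => (hJ1 i hi).2.1)] at h1
      simp only [Finset.sum_range_succ, Finset.sum_range_zero] at h1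
      push_cast at h1
      rw [← h1]
      simp)
  have hJ' : ∀ (i : Fin r) (g : G), kk v N i g ≠ 0 → J i := by
    intro i g h1
    by_contra h2
    exact h1 (hJ i h2 g)
  have h3 : FF h v N g₀ 3 ≠ 0 := by
    intro h3
    obtain ⟨f4, f5, f7, f8, f9, f10, f11, f6, f21, -⟩ := hfacts g₀
    obtain ⟨f2, f1⟩ := f21 h3
    rw [h3] at f6
    apply hne
    rw [← FF_height hinj hJ g₀ (hJ' i₀ g₀ hne)]
    have t1 := hpos i₀
    have t2 := (hJ1 i₀ (hJ' i₀ g₀ hne)).2.1
    generalize h i₀ = t at t1 t2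
    interval_cases t
    exacts [f1, f2, h3, f4, f5, f6, f7, f8, f9, f10, f11]
  have h2 : FF h v N g₀ 2 ≠ 0 := (hfacts g₀).2.2.2.2.2.2.2.2.2 h3
  have h6 : FF h v N g₀ 6 ≠ 0 := by rw [(hfacts g₀).2.2.2.2.2.2.2.1]; exact h3
  obtain ⟨i, hi, hki⟩ := FF_ne h2
  obtain ⟨j, hj, hkj⟩ := FF_ne h3
  obtain ⟨l, hl, hkl⟩ := FF_ne h6
  have hiJ := hJ' i g₀ hki
  have hjJ := hJ' j g₀ hkj
  have hlJ := hJ' l g₀ hkl
  have e2 : ∀ g : G, FF h v N g 2 = kk v N i g := fun g => by rw [← hi, FF_height hinj hJ g hiJ]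
  have e3 : ∀ g : G, FF h v N g 3 = kk v N j g := fun g => by rw [← hj, FF_height hinj hJ g hjJ]
  have e6 : ∀ g : G, FF h v N g 6 = kk v N l g := fun g => by rw [← hl, FF_height hinj hJ g hlJ]
  obtain ⟨x, hx⟩ := kk_single ((hN i).trans (hJ1 i hiJ).1) hki
  obtain ⟨y, hy⟩ := kk_single ((hN j).trans (hJ1 j hjJ).1) hkj
  obtain ⟨z, hz⟩ := kk_single ((hN l).trans (hJ1 l hlJ).1) hkl
  have hiff : ∀ g : G, (v i (g • x) ≠ 0 ↔ v j (g • y) ≠ 0) ∧
      (v l (g • z) ≠ 0 ↔ v j (g • y) ≠ 0) := by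
    intro g
    obtain ⟨-, -, -, -, -, -, -, f6, f21, f23⟩ := hfacts g
    rw [e2, e3, hx, hy] at f23
    rw [e2, e3, hx, hy] at f21
    rw [e6, e3, hz, hy] at f6
    refine ⟨⟨fun h1 h4 => h1 (f21 h4).1, f23⟩, by rw [f6]⟩
  have c2 := card_nonzero (hS i) (hd i) (hm i) x
  have c3 := card_nonzero (hS j) (hd j) (hm j) y
  have c6 := card_nonzero (hS l) (hd l) (hm l) z
  have q2 : Nat.card {g : G // v i (g • x) ≠ 0} = Nat.card {g : G // v j (g • y) ≠ 0} :=
    Nat.card_congr (Equiv.subtypeEquivRight fun g => (hiff g).1)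
  have q6 : Nat.card {g : G // v l (g • z) ≠ 0} = Nat.card {g : G // v j (g • y) ≠ 0} :=
    Nat.card_congr (Equiv.subtypeEquivRight fun g => (hiff g).2)
  rw [q2] at c2
  rw [q6] at c6
  set C := Nat.card {g : G // v j (g • y) ≠ 0} with hC
  have hCpos : 0 < C := by
    rw [hC]
    have _ : Nonempty {g : G // v j (g • y) ≠ 0} := ⟨⟨g₀, by rw [← hy]; exact hkj⟩⟩
    exact Nat.card_pos
  -- relations between the numbers
  have r23 : d i * m j = d j * m i := by
    apply Nat.eq_of_mul_eq_mul_left hCpos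
    calc C * (d i * m j) = (C * d i) * m j := by ring
      _ = (Nat.card G * m j) * m i := by rw [c2]; ring
      _ = C * (d j * m i) := by rw [← c3]; ring
  have r63 : d l * m j = d j * m l := by
    apply Nat.eq_of_mul_eq_mul_left hCpos
    calc C * (d l * m j) = (C * d l) * m j := by ring
      _ = (Nat.card G * m j) * m l := by rw [c6]; ring
      _ = C * (d j * m l) := by rw [← c3]; ring
  have s23 : b i * 3 = b j * 2 := by
    rw [← hi, ← hj, hh i, hh j, hb i, hb j]
    calc ε i * (2 * d i) * (ε j * m j) = 2 * ε i * ε j * (d i * m j) := by ring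
      _ = 2 * ε i * ε j * (d j * m i) := by rw [r23]
      _ = _ := by ring
  have s63 : b l * 3 = b j * 6 := by
    rw [← hl]
    nth_rewrite 1 [← hj]
    rw [hh l, hh j, hb l, hb j]
    calc ε l * (2 * d l) * (ε j * m j) = 2 * ε l * ε j * (d l * m j) := by ring
      _ = 2 * ε l * ε j * (d j * m l) := by rw [r63]
      _ = _ := by ring
  have hbl := (hJ1 l hlJ).2.2
  have hbpos : 0 < b l := by
    rw [hb l]
    have h1 : 0 < ε l := by
      rcases Nat.eq_zero_or_pos (ε l) with h0 | h0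
      · have := hh l
        rw [h0, zero_mul, hl] at this
        omega
      · exact h0
    have h2 : 0 < 2 * d l := by
      rw [← hd l]
      exact Fintype.card_pos_iff.2 ⟨z⟩
    exact Nat.mul_pos h1 h2
  have hbi : b i = 2 * (ε i * d i) := by rw [hb i]; ring
  have hbj : b j = 2 * (ε j * d j) := by rw [hb j]; ring
  refine hexc ⟨i, j, l, ⟨hiJ, hi, ?_⟩, ⟨hjJ, hj, ?_⟩, ⟨hlJ, hl, ?_⟩⟩ <;> omega

/-- **The relations of the family are trivial.** -/
theorem balanced_family (hS : ∀ i, Sgn G (c i) (v i)) {h b n d m ε : Fin r → ℕ}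
    (hd : ∀ i, Fintype.card (X i) = 2 * d i) (hm : ∀ i, (Lv (v i) 1).card = m i)
    (hh : ∀ i, h i = ε i * m i) (hb : ∀ i, b i = ε i * (2 * d i)) (hpos : ∀ i, 0 < h i)
    {Γ : Set ℚ} (hA : Admissible Γ h b d m n)
    (N : ∀ i, X i → ℕ) (hN : ∀ i, ∑ x, N i x ≤ n i)
    (hrel : ∀ g : G, ∑ i, (kk v N i g : ℚ) / h i ∈ Γ) (i : Fin r) (x : X i) :
    N i x = N i (c i x) := by
  classical
  have hiso : ∀ i, Isolated Γ h n i → ∀ g : G, kk v N i g = 0 := fun i hi g =>
    hi (fun i => kk v N i g) (fun i => kk_abs hS N i g (hN i)) (hrel g)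
  by_cases hi : Isolated Γ h n i
  · exact balanced_comb (hS i) (hd i) (hm i) (hA.good i hi) (N i) (hN i) (hiso i hi) x
  · obtain ⟨hΓ, hn1, -⟩ := hA.linked i hi
    refine balanced_two (hS i) (N i) ((hN i).trans (hn1.trans (by norm_num))) (fun g => ?_) x
    exact kk_zero_linked hS hd hm hh hb (fun i => ¬ Isolated Γ h n i)
      (fun i hi => ⟨(hA.linked i hi).2.1, (hA.linked i hi).2.2.1, (hA.linked i hi).2.2.2.1⟩)
      (fun i j hi hj => (hA.linked i hi).2.2.2.2 j hj) hA.exc hpos N hN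
      (fun i hi => hiso i (not_not.1 hi)) (fun g => by simpa using hΓ (hrel g)) i g

end family

end Pool.Agent.N179.TL
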