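import Pool.Agent.Y138.TU.Main

/-!
# Products with varieties whose Frobenius eigenvalues have a property depending on the field

The property `PP m ν` concerns an eigenvalue `ν` of the Frobenius endomorphism over the field with
`p ^ m` elements.
-/

set_option autoImplicit false
set_option linter.unusedSectionVars false

open CategoryTheory AlgebraicGeometry NumberField
open scoped TensorProduct

universe u v

namespace Pool.Agent.N179.TL

open Pool.Agent.H914 Pool.Agent.H914.VarClass Pool.Agent.H914.VarClass.Obj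
  Pool.Agent.H914.WeilCohomology Pool.Agent.H281R3.HT Pool.Agent.W552 Pool.Agent.W534
  Pool.Agent.W458.RK Pool.Agent.W458.MF Pool.Agent.TH132.A Pool.Agent.TH121.KT Pool.Agent.H447
  Pool.Agent.Y138.TU

variable {k : Type u} [Field k] {𝒱 : VarClass k} {ops : CycleOps 𝒱}
  {W : WeilCohomology.{u, v} ops} {X Z U : 𝒱.Obj} {p : ℕ} {Φ : FrobSystem W p}
  {PP : ℕ → W.K → Prop}

/-- The Tate classes on the products of `X` with all spaces on which the eigenvalues of the
Frobenius endomorphism over the field with `p ^ m` elements have the property `PP m` are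
combinations of products with algebraic classes of `X`. -/
def TateTimesL (Φ : FrobSystem W p) (PP : ℕ → W.K → Prop) (X : 𝒱.Obj) : Prop :=
  ∀ s : ℕ, 0 < s → ∀ (V : Type v) [AddCommGroup V] [Module W.K V] [Module.Finite W.K V]
    (G : Module.End W.K V), (∀ ν, G.HasEigenvalue ν → PP (Φ.e X * s) ν) →
    ∀ (c : ℤ) (a : ℕ) (x : W.H X ⊗[W.K] V),
      Killed (TensorProduct.map (frob Φ X s) G) ((card Φ X s : W.K) ^ c) a x →
        x ∈ Submodule.span W.K {w | ∃ (i : ℕ) (y : W.H X) (v : V), y ∈ cycSub W X i ∧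
          Killed G ((card Φ X s : W.K) ^ (c - i)) a v ∧ w = y ⊗ₜ v}

lemma TateTimesL.one (h : TateTimesL Φ PP X) (h1 : ∀ m, 0 < m → PP m 1) :
    TateTimesP Φ (fun ν => ν = 1) X := by
  intro s hs V _ _ _ G hG
  exact h s hs V G (fun ν hν => by
    rw [show ν = 1 from hG ν hν]
    exact h1 _ (Nat.mul_pos (Φ.e_pos X) hs))

lemma PP_powL [IsAlgClosed W.K] {V : Type v} [AddCommGroup V] [Module W.K V]
    [Module.Finite W.K V] {G : Module.End W.K V} {m : ℕ} (hG : ∀ ν, G.HasEigenvalue ν → PP m ν)
    (hpow : ∀ m ν (n : ℕ), 0 < n → PP m ν → PP (m * n) (ν ^ n)) {n : ℕ} (hn : 0 < n) (ν : W.K)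
    (hν : (G ^ n).HasEigenvalue ν) : PP (m * n) ν := by
  rw [Module.End.hasEigenvalue_iff_mem_spectrum, spectrum.map_pow_of_pos _ hn] at hν
  obtain ⟨β, hβ, rfl⟩ := hν
  exact hpow m β n hn (hG β (Module.End.hasEigenvalue_iff_mem_spectrum.2 hβ))

/-- **The Tate conjecture for `Z × U`**, if the Tate classes on the products of `Z` split. -/
theorem tateK_prod_lev [IsAlgClosed W.K] (hp : 1 < p) (hT : TateTimesL Φ PP Z)
    (h1PP : ∀ m, 0 < m → PP m 1)
    (hpow : ∀ m ν (n : ℕ), 0 < n → PP m ν → PP (m * n) (ν ^ n))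
    (hU : ∀ ν, Module.End.HasEigenvalue (W.map (Φ.Fr U)).toLinearMap ν → PP (Φ.e U) ν)
    {a c : ℕ} :
    TateK Φ (Z.prod U) a c ↔
      ∀ i ≤ c, (∃ x, Z.IsCyc i x ∧ ¬ HomEq W x 0) → TateK Φ U a (c - i) := by
  obtain ⟨A, B, C, hA, hB, hC, hAB, hAC, hcomm⟩ := exists_comm Φ Z U
  have hcardB : ∀ t, card Φ (Z.prod U) (A * t) = card Φ Z (B * t) := by
    intro t
    rw [W534.card, W534.card]
    congr 1
    calc Φ.e (Z.prod U) * (A * t) = (A * Φ.e (Z.prod U)) * t := by ring
      _ = _ := by rw [hAB]; ring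
  have hcardC : ∀ t, card Φ (Z.prod U) (A * t) = card Φ U (C * t) := by
    intro t
    rw [W534.card, W534.card]
    congr 1
    calc Φ.e (Z.prod U) * (A * t) = (A * Φ.e (Z.prod U)) * t := by ring
      _ = _ := by rw [hAC]; ring
  have hBC : ∀ t, Φ.e U * (C * t) = Φ.e Z * (B * t) := by
    intro t
    calc Φ.e U * (C * t) = (C * Φ.e U) * t := by ring
      _ = (B * Φ.e Z) * t := by rw [← hAC, hAB]
      _ = _ := by ring
  set E := kunnethMap (W.map (fst Z U)) (W.map (snd Z U)) with hE
  have hEinj : Function.Injective E := (W.kunneth Z U).1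
  constructor
  · rintro h i hi ⟨x₀, hx₀, hne⟩ s hs u hu hk
    rw [HomEq, map_zero] at hne
    have hD := homEqNum_of_tateTimesP hp (hT.one h1PP) rfl
    obtain ⟨-, x', hx', htr⟩ := exists_partner hD ⟨x₀, hx₀, rfl⟩ hne
    have hcx : W.cl Z x₀ ∈ cycSub W Z i := Submodule.subset_span ⟨x₀, hx₀, rfl⟩
    -- the product is killed
    have hgr : ext W (W.cl Z x₀) u ∈ W.gr (Z.prod U) (2 * c) := by
      have h1 := W.mul_mem (W.map_mem (fst Z U) (W.cl_mem hx₀)) (W.map_mem (snd Z U) hu)
      rwa [show 2 * i + 2 * (c - i) = 2 * c by omega] at h1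
    have hk1 : Killed (frob Φ U (C * s)) ((card Φ U (C * s) : W.K) ^ (c - i)) a u := by
      rw [mul_comm C s]
      exact (killed_frob_mul hC).2 hk
    obtain ⟨M, hM, hkM⟩ := hk1
    obtain ⟨N, hN, hyN⟩ := killed_one_iff.1 (cyc_killed Φ (s := B * s) hcx)
    have hyMN : (frob Φ Z (B * s) ^ (N * M)) (W.cl Z x₀) =
        ((card Φ Z (B * s) : W.K) ^ i) ^ (N * M) • W.cl Z x₀ := by
      have h1 : ((frob Φ Z (B * s) ^ N - (((card Φ Z (B * s) : W.K) ^ i) ^ N) •
          (1 : Module.End W.K (W.H Z))) ^ 1) (W.cl Z x₀) = 0 := by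
        rw [pow_one, LinearMap.sub_apply, hyN, LinearMap.smul_apply, Module.End.one_apply,
          sub_self]
      have h2 := killed_mul h1 M
      rwa [pow_one, LinearMap.sub_apply, LinearMap.smul_apply, Module.End.one_apply,
        sub_eq_zero] at h2
    have h3 : Killed (TensorProduct.map (frob Φ Z (B * s)) (frob Φ U (C * s)))
        ((card Φ Z (B * s) : W.K) ^ c) a (W.cl Z x₀ ⊗ₜ[W.K] u) := by
      refine ⟨N * M, Nat.mul_pos hN hM, ?_⟩
      have h4 := killed_tmul (F := frob Φ Z (B * s)) (G := frob Φ U (C * s))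
        (α := (card Φ Z (B * s) : W.K) ^ i) (β := (card Φ Z (B * s) : W.K) ^ (c - i)) hyMN a u
      rw [← pow_add, Nat.add_sub_cancel' hi] at h4
      rw [h4]
      have h5 := killed_mul hkM N
      rw [← hcardC s, hcardB s, mul_comm M N] at h5
      rw [h5, TensorProduct.tmul_zero, smul_zero]
    have h4 : Killed (frob Φ (Z.prod U) (A * s)) ((card Φ (Z.prod U) (A * s) : W.K) ^ c) a
        (ext W (W.cl Z x₀) u) := by
      rw [hcardB s]
      exact killed_comm (f := E) (x := W.cl Z x₀ ⊗ₜ[W.K] u) (hcomm s) h3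
    have h5 := h (A * s) (Nat.mul_pos hA hs) _ hgr h4
    -- the coefficient
    have h6 : coef W x' (ext W (W.cl Z x₀) u) = W.tr Z (W.cl Z x₀ * x') • u := by
      rw [coef, ext, mul_assoc, ← ((AS.of hx').map (fst Z U)).comm (W.map (snd Z U) u),
        ← mul_assoc, ← map_mul, W.push_snd]
    have h7 : ∀ z ∈ spanCycles W (Z.prod U) c, coef W x' z ∈ spanCycles W U (c - i : ℕ) := by
      intro z hz
      induction hz using Submodule.span_induction with
      | mem z hz =>
        obtain ⟨j, hj, z, hz, rfl⟩ := hz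
        obtain rfl : j = c := by exact_mod_cast hj
        have hdim := (Z.dim_prod U)
        have hxd : i ≤ Z.dim := by
          by_contra hlt
          apply hne
          have h1 := W.cl_mem hx₀
          rw [W.gr_eq_bot Z _ (by omega)] at h1
          exact (Submodule.mem_bot _).1 h1
        have h8 : coef W x' (W.cl _ z) ∈ algClasses W U (j - i) :=
          alg_push (snd Z U) (alg_mul ⟨z, hz, rfl⟩ (alg_map (fst Z U) hx'))
            (by rw [dim_prod]; omega)
        obtain ⟨w, hw, hw'⟩ := h8
        exact Submodule.subset_span ⟨_, rfl, w, hw, hw'⟩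
      | zero => rw [coef, zero_mul, map_zero]; exact Submodule.zero_mem _
      | add x y _ _ hx hy =>
        rw [coef, add_mul, map_add]; exact Submodule.add_mem _ hx hy
      | smul r x _ hx =>
        rw [coef, smul_mul_assoc, map_smul]; exact Submodule.smul_mem _ _ hx
    have h8 := h7 _ h5
    rw [h6] at h8
    exact (Submodule.smul_mem_iff _ htr).1 h8
  · intro h s hs w hw hk
    rw [← cycSub_eq]
    obtain ⟨x, hx⟩ := (W.kunneth Z U).2 w
    have hk1 : Killed (frob Φ (Z.prod U) (A * s)) ((card Φ (Z.prod U) (A * s) : W.K) ^ c) a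
        (E x) := by
      rw [mul_comm A s, hE, hx]
      exact (killed_frob_mul hA).2 hk
    rw [hcardB s, killed_comm_iff E hEinj (hcomm s), ← zpow_natCast] at hk1
    have hG : ∀ ν, Module.End.HasEigenvalue (frob Φ U (C * s)) ν → PP (Φ.e Z * (B * s)) ν := by
      rw [frob_pow_eq', ← hBC s]
      exact PP_powL hU hpow (Nat.mul_pos hC hs)
    have h1 := hT (B * s) (Nat.mul_pos hB hs) (W.H U) (frob Φ U (C * s)) hG c a x hk1
    -- projection to the degree `2 c`
    rw [← proj_same (W.isInternal (Z.prod U)) hw, ← hx, ← hE]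
    clear hk1 hk hx hw
    induction h1 using Submodule.span_induction with
    | mem t ht =>
      obtain ⟨i, y, v, hy, hv, rfl⟩ := ht
      change proj (W.isInternal (Z.prod U)) (2 * c) (W.map (fst Z U) y * W.map (snd Z U) v) ∈ _
      by_cases hic : i ≤ c
      · have h2 : proj (W.isInternal (Z.prod U)) (2 * c)
            (W.map (fst Z U) y * W.map (snd Z U) v) =
            ext W y (proj (W.isInternal U) (2 * (c - i)) v) := by
          refine gr_induction (W.isInternal U) (p := fun v =>
            proj (W.isInternal (Z.prod U)) (2 * c) (W.map (fst Z U) y * W.map (snd Z U) v) =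
              ext W y (proj (W.isInternal U) (2 * (c - i)) v)) ?_ ?_ v
          · intro l b hb
            have h3 := W.mul_mem (W.map_mem (fst Z U) (cycSub_gr hy)) (W.map_mem (snd Z U) hb)
            by_cases hl : l = 2 * (c - i)
            · subst hl
              rw [show 2 * i + 2 * (c - i) = 2 * c by omega] at h3
              rw [proj_same _ h3, proj_same _ hb]
              rfl
            · rw [proj_ne _ h3 (by omega), proj_ne _ hb hl, ext, map_zero, mul_zero]
          · intro b b' hb hb'
            simp only [map_add, mul_add, hb, hb', ext]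
        rw [h2]
        by_cases hy0 : y = 0
        · rw [hy0, ext, map_zero, zero_mul]
          exact Submodule.zero_mem _
        have h3 : ∃ x, Z.IsCyc i x ∧ ¬ HomEq W x 0 := by
          by_contra hne
          push Not at hne
          apply hy0
          have h4 : cycSub W Z i ≤ ⊥ := by
            rw [cycSub, Submodule.span_le]
            rintro _ ⟨z, hz, rfl⟩
            have := hne z hz
            rw [HomEq, map_zero] at this
            exact (Submodule.mem_bot _).2 this
          exact (Submodule.mem_bot _).1 (h4 hy)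
        have h4 := h i hic h3 (C * s) (Nat.mul_pos hC hs)
          (proj (W.isInternal U) (2 * (c - i)) v) (proj_mem _ _ _) (by
            have h5 : Killed (frob Φ U (C * s)) ((card Φ U (C * s) : W.K) ^ (c - i)) a v := by
              rw [← hcardC, hcardB, ← zpow_natCast, Nat.cast_sub hic]
              exact hv
            exact killed_comm (f := proj (W.isInternal U) (2 * (c - i)))
              (fun x => (proj_map _ _ _).symm) h5)
        rw [← cycSub_eq] at h4
        have h5 := cycSub_ext hy h4
        rwa [Nat.add_sub_cancel' hic] at h5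
      · have h2 : proj (W.isInternal (Z.prod U)) (2 * c)
            (W.map (fst Z U) y * W.map (snd Z U) v) = 0 := by
          refine gr_induction (W.isInternal U) (p := fun v =>
            proj (W.isInternal (Z.prod U)) (2 * c) (W.map (fst Z U) y * W.map (snd Z U) v) =
              0) ?_ ?_ v
          · intro l b hb
            have h3 := W.mul_mem (W.map_mem (fst Z U) (cycSub_gr hy)) (W.map_mem (snd Z U) hb)
            exact proj_ne _ h3 (by omega)
          · intro b b' hb hb'
            simp only [map_add, mul_add, hb, hb', add_zero]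
        rw [h2]
        exact Submodule.zero_mem _
    | zero => rw [map_zero, map_zero]; exact Submodule.zero_mem _
    | add x y _ _ hx hy => rw [map_add, map_add]; exact Submodule.add_mem _ hx hy
    | smul r x _ hx => rw [map_smul, map_smul]; exact Submodule.smul_mem _ _ hx

/-- **The Tate conjecture for `Z` and for `Z × U`**, in the two forms. -/
theorem tateIn_prod_lev [IsAlgClosed W.K] (hp : 1 < p) (hT : TateTimesL Φ PP Z)
    (h1PP : ∀ m, 0 < m → PP m 1)
    (hpow : ∀ m ν (n : ℕ), 0 < n → PP m ν → PP (m * n) (ν ^ n)) :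
    (∀ c, SemisimpleTateIn Φ Z c) ∧
    ∀ U : 𝒱.Obj,
      (∀ ν, Module.End.HasEigenvalue (W.map (Φ.Fr U)).toLinearMap ν → PP (Φ.e U) ν) → ∀ c,
      (TateIn Φ (Z.prod U) c ↔
        ∀ i ≤ c, (∃ x, Z.IsCyc i x ∧ ¬ HomEq W x 0) → TateIn Φ U (c - i)) ∧
      (SemisimpleTateIn Φ (Z.prod U) c ↔
        ∀ i ≤ c, (∃ x, Z.IsCyc i x ∧ ¬ HomEq W x 0) → SemisimpleTateIn Φ U (c - i)) := by
  refine ⟨fun c s hs x hx => ?_, ?_⟩
  · obtain ⟨⟨b, hb⟩, -⟩ := (mem_genTate Φ).1 hx
    rw [← cycSub_eq]
    exact gen_algP hp (hT.one h1PP) rfl hs hb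
  · intro U hU c
    have key : ∀ b, TateK Φ (Z.prod U) b c ↔
        ∀ i ≤ c, (∃ x, Z.IsCyc i x ∧ ¬ HomEq W x 0) → TateK Φ U b (c - i) := fun b =>
      tateK_prod_lev hp hT h1PP hpow hU
    refine ⟨?_, ?_⟩
    · rw [Pool.Agent.Y138.TU.tateIn_iff, key 1]
      simp only [Pool.Agent.Y138.TU.tateIn_iff]
    · simp only [semisimple_iff, key]
      constructor
      · intro h i hi hx a
        exact h a i hi hx
      · intro h a i hi hx
        exact h i hi hx a

end Pool.Agent.N179.TL
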